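import Pool.Agent.Q33.SB.Def

/-!
# Project SB: basic facts on the cyclic algebra `Cyc σ n f`

`Cyc.dl : R ⊗ L →ₐ[R] Cyc σ n f`, `Cyc.e`, the relations `e * dl z = dl (σ z) * e`, `e ^ n = f`, and the
linear equivalence `Cyc.equiv : Cyc σ n f ≃ₗ[R] (Fin n → R ⊗ L)` (first row), with inverse
`x ↦ ∑ j, dl (x j) * e ^ j`.
-/

set_option autoImplicit false

open scoped TensorProduct

namespace Pool.Agent.Q33.SB

section

variable {k : Type} [Field k] {R : Type} [CommRing R] [Algebra k R] {L : Type} [Field L] [Algebra k L]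

theorem sg_tmul (σ : L ≃ₐ[k] L) (r : R) (x : L) : sg R σ (r ⊗ₜ x) = r ⊗ₜ[k] σ x := rfl

theorem sg_pow_tmul (σ : L ≃ₐ[k] L) (i : ℕ) (r : R) (x : L) :
    ((sg R σ) ^ i) (r ⊗ₜ x) = r ⊗ₜ[k] (σ ^ i) x := by
  induction i with
  | zero => rfl
  | succ i ih =>
    rw [pow_succ', pow_succ', AlgEquiv.mul_apply, ih, sg_tmul, AlgEquiv.mul_apply]

theorem sg_pow (σ : L ≃ₐ[k] L) (i : ℕ) : (sg R σ) ^ i = sg R (σ ^ i) := by
  apply AlgEquiv.coe_toAlgHom_injective
  apply Algebra.TensorProduct.ext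
  · ext
  · ext x
    exact sg_pow_tmul σ i 1 x

theorem sg_pow_n {σ : L ≃ₐ[k] L} {n : ℕ} (h : IsGen σ n) : (sg R σ) ^ n = 1 := by
  rw [sg_pow, ← h.2.1, pow_orderOf_eq_one]
  apply AlgEquiv.coe_toAlgHom_injective
  apply Algebra.TensorProduct.ext
  · ext
  · ext x
    rfl

variable {σ : L ≃ₐ[k] L} {n : ℕ} {f : R}

theorem mem_Cyc {X : Matrix (Fin n) (Fin n) (R ⊗[k] L)} :
    X ∈ Cyc σ n f ↔ Pm (k := k) L n f * X = X.map (sg R σ) * Pm (k := k) L n f := Iff.rfl

theorem Pm_mul_apply (X : Matrix (Fin n) (Fin n) (R ⊗[k] L)) (i j : Fin n) :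
    (Pm (k := k) L n f * X) i j = if h : (i : ℕ) + 1 < n then X ⟨i + 1, h⟩ j else
      algebraMap R (R ⊗[k] L) f * X ⟨0, i.pos⟩ j := by
  rw [Matrix.mul_apply]
  split_ifs with h
  · rw [Finset.sum_eq_single (⟨i + 1, h⟩ : Fin n)]
    · simp [Pm]
    · intro b _ hb
      have h1 : ¬ (i : ℕ) + 1 = b := fun hc => hb (Fin.ext hc.symm)
      have h2 : ¬ ((i : ℕ) + 1 = n ∧ (b : ℕ) = 0) := fun hc => by omega
      simp only [Pm, Matrix.of_apply, if_neg h1, if_neg h2, zero_mul]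
    · intro hc; exact absurd (Finset.mem_univ _) hc
  · have hi : (i : ℕ) + 1 = n := by have := i.2; omega
    rw [Finset.sum_eq_single (⟨0, i.pos⟩ : Fin n)]
    · have h1 : ¬ n = 0 := by omega
      simp only [Pm, Matrix.of_apply, if_neg h1, hi, and_self, if_true]
    · intro b _ hb
      have h1 : ¬ (i : ℕ) + 1 = b := fun hc => by have := b.2; omega
      have h2 : ¬ ((i : ℕ) + 1 = n ∧ (b : ℕ) = 0) := fun hc => hb (Fin.ext hc.2)
      simp only [Pm, Matrix.of_apply, if_neg h1, if_neg h2, zero_mul]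
    · intro hc; exact absurd (Finset.mem_univ _) hc

theorem mul_Pm_apply (X : Matrix (Fin n) (Fin n) (R ⊗[k] L)) (i j : Fin n) :
    (X * Pm (k := k) L n f) i j = if h : (j : ℕ) = 0 then X i ⟨n - 1, by have := i.pos; omega⟩ *
      algebraMap R (R ⊗[k] L) f else X i ⟨j - 1, by have := j.2; omega⟩ := by
  rw [Matrix.mul_apply]
  split_ifs with h
  · rw [Finset.sum_eq_single (⟨n - 1, by have := i.pos; omega⟩ : Fin n)]
    · have h1 : ¬ n = 0 := by have := i.pos; omega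
      have h2 : (n - 1) + 1 = n := by have := i.pos; omega
      simp only [Pm, Matrix.of_apply, if_neg h1, h2, h, and_self, if_true]
    · intro b _ hb
      have h1 : ¬ (b : ℕ) + 1 = j := by omega
      have h2 : ¬ ((b : ℕ) + 1 = n ∧ (j : ℕ) = 0) := fun hc => hb (Fin.ext (by
        change (b : ℕ) = n - 1
        omega))
      simp only [Pm, Matrix.of_apply, if_neg h1, if_neg h2, mul_zero]
    · intro hc; exact absurd (Finset.mem_univ _) hc
  · rw [Finset.sum_eq_single (⟨j - 1, by have := j.2; omega⟩ : Fin n)]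
    · have h1 : ((j : ℕ) - 1) + 1 = j := by omega
      simp only [Pm, Matrix.of_apply, h1, if_true, mul_one]
    · intro b _ hb
      have h1 : ¬ (b : ℕ) + 1 = j := fun hc => hb (Fin.ext (by
        change (b : ℕ) = j - 1
        omega))
      have h2 : ¬ ((b : ℕ) + 1 = n ∧ (j : ℕ) = 0) := fun hc => h hc.2
      simp only [Pm, Matrix.of_apply, if_neg h1, if_neg h2, mul_zero]
    · intro hc; exact absurd (Finset.mem_univ _) hc

/-- the recursion for the rows of an element of the cyclic algebra -/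
theorem Cyc_row {X : Matrix (Fin n) (Fin n) (R ⊗[k] L)} (hX : X ∈ Cyc σ n f) (i : ℕ) (h : i + 1 < n)
    (j : Fin n) : X ⟨i + 1, h⟩ j = (X.map (sg R σ) * Pm (k := k) L n f) ⟨i, by omega⟩ j := by
  rw [← mem_Cyc.1 hX, Pm_mul_apply]
  simp only [h, dif_pos]

/-- elements with the same first row are equal -/
theorem Cyc_ext {X Y : Matrix (Fin n) (Fin n) (R ⊗[k] L)} (hX : X ∈ Cyc σ n f) (hY : Y ∈ Cyc σ n f)
    (hn : 0 < n) (h : ∀ j, X ⟨0, hn⟩ j = Y ⟨0, hn⟩ j) : X = Y := by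
  have key : ∀ i : ℕ, ∀ hi : i < n, ∀ j, X ⟨i, hi⟩ j = Y ⟨i, hi⟩ j := by
    intro i
    induction i with
    | zero => intro _ j; exact h j
    | succ i ih =>
      intro hi j
      rw [Cyc_row hX i hi, Cyc_row hY i hi, mul_Pm_apply, mul_Pm_apply]
      split_ifs with hj
      · rw [Matrix.map_apply, Matrix.map_apply, ih (by omega)]
      · rw [Matrix.map_apply, Matrix.map_apply, ih (by omega)]
  ext i j
  exact key i i.2 j

/-- the diagonal matrix with the entries `σ^i(z)` -/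
noncomputable def dlM (σ : L ≃ₐ[k] L) (n : ℕ) : (R ⊗[k] L) →ₐ[R] Matrix (Fin n) (Fin n) (R ⊗[k] L) where
  toFun z := Matrix.diagonal fun i : Fin n => ((sg R σ) ^ (i : ℕ)) z
  map_one' := by
    rw [← Matrix.diagonal_one]
    congr 1
    ext i
    exact map_one _
  map_mul' z z' := by
    rw [Matrix.diagonal_mul_diagonal]
    congr 1
    ext i
    exact map_mul _ _ _
  map_zero' := by
    rw [← Matrix.diagonal_zero]
    congr 1
    ext i
    exact map_zero _
  map_add' z z' := by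
    rw [Matrix.diagonal_add]
    congr 1
    ext i
    exact map_add _ _ _
  commutes' r := by
    ext i j
    rw [Matrix.algebraMap_matrix_apply, Matrix.diagonal_apply]
    split_ifs
    · exact ((sg R σ) ^ (i : ℕ)).commutes r
    · rfl

theorem dlM_apply (z : R ⊗[k] L) : dlM σ n z = Matrix.diagonal fun i : Fin n =>
    ((sg R σ) ^ (i : ℕ)) z := rfl

theorem Pm_dlM (h : IsGen σ n) (z : R ⊗[k] L) : Pm (k := k) L n f * dlM σ n z = dlM σ n (sg R σ z) * Pm (k := k) L n f := by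
  ext i j
  rw [dlM_apply, dlM_apply, Matrix.mul_diagonal, Matrix.diagonal_mul, mul_comm]
  by_cases h1 : (i : ℕ) + 1 = j
  · congr 1
    rw [← h1, pow_succ, AlgEquiv.mul_apply]
  · by_cases h2 : (i : ℕ) + 1 = n ∧ (j : ℕ) = 0
    · congr 1
      rw [← AlgEquiv.mul_apply, ← pow_succ, h2.1, h2.2, sg_pow_n h, pow_zero]
    · simp only [Pm, Matrix.of_apply, if_neg h1, if_neg h2, mul_zero]

theorem map_dlM (z : R ⊗[k] L) : (dlM σ n z).map (sg R σ) = dlM σ n (sg R σ z) := by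
  ext i j
  rw [Matrix.map_apply, dlM_apply, dlM_apply, Matrix.diagonal_apply, Matrix.diagonal_apply]
  split_ifs
  · rw [← AlgEquiv.mul_apply, ← AlgEquiv.mul_apply, ← pow_succ, ← pow_succ']
  · exact map_zero _

theorem map_Pm : (Pm (k := k) L n f).map (sg R σ) = Pm (k := k) L n f := by
  ext i j
  rw [Matrix.map_apply]
  unfold Pm
  simp only [Matrix.of_apply]
  split_ifs
  · exact map_one _
  · exact (sg R σ).commutes f
  · exact map_zero _

theorem dlM_mem (h : IsGen σ n) (z : R ⊗[k] L) : dlM σ n z ∈ Cyc σ n f := by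
  rw [mem_Cyc, map_dlM]
  exact Pm_dlM h z

theorem Pm_mem : Pm (k := k) L n f ∈ Cyc σ n f := by
  rw [mem_Cyc, map_Pm]

/-- the first row of `e^j` -/
theorem Pm_pow_row (hn : 0 < n) (j : ℕ) (hj : j < n) (i : Fin n) :
    ((Pm (k := k) L n f) ^ j : Matrix (Fin n) (Fin n) (R ⊗[k] L)) ⟨0, hn⟩ i = if (i : ℕ) = j then 1 else 0 := by
  induction j generalizing i with
  | zero =>
    rw [pow_zero, Matrix.one_apply]
    by_cases h : (i : ℕ) = 0
    · rw [if_pos h, if_pos (Fin.ext h.symm)]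
    · rw [if_neg h, if_neg (fun hc => h (by rw [← hc]))]
  | succ j ih =>
    rw [pow_succ, mul_Pm_apply]
    split_ifs with h1 h2 h2
    · omega
    · rw [ih (by omega), if_neg (by change ¬ (n - 1 = j); omega), zero_mul]
    · rw [ih (by omega), if_pos (by change (i : ℕ) - 1 = j; omega)]
    · rw [ih (by omega), if_neg (by change ¬ ((i : ℕ) - 1 = j); omega)]

/-- the first row of `∑ z_j e^j` -/
theorem sum_row (hn : 0 < n) (z : Fin n → R ⊗[k] L) (i : Fin n) :
    (∑ j : Fin n, dlM σ n (z j) * (Pm (k := k) L n f) ^ (j : ℕ)) ⟨0, hn⟩ i = z i := by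
  rw [Matrix.sum_apply, Finset.sum_eq_single i]
  · rw [dlM_apply, Matrix.diagonal_mul, Pm_pow_row hn _ i.2, if_pos rfl, mul_one, pow_zero]
    rfl
  · intro b _ hb
    rw [dlM_apply, Matrix.diagonal_mul, Pm_pow_row hn _ b.2, if_neg (fun hc => hb (Fin.ext hc.symm)),
      mul_zero]
  · intro hc; exact absurd (Finset.mem_univ _) hc

theorem Pm_pow_n (h : IsGen σ n) : (Pm (k := k) L n f : Matrix (Fin n) (Fin n) (R ⊗[k] L)) ^ n =
    algebraMap R _ f := by
  have hn := h.2.2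
  refine Cyc_ext (σ := σ) (f := f) (Subalgebra.pow_mem _ Pm_mem n) (Subalgebra.algebraMap_mem _ f) hn
    fun j => ?_
  obtain ⟨m, rfl⟩ : ∃ m, n = m + 1 := ⟨n - 1, by omega⟩
  rw [pow_succ, mul_Pm_apply, Matrix.algebraMap_matrix_apply]
  split_ifs with h1 h2 h2
  · rw [Pm_pow_row hn m (by omega), if_pos (by change m + 1 - 1 = m; omega), one_mul]
  · exact absurd (Fin.ext h1.symm) h2
  · exact absurd (by rw [← h2]) h1
  · rw [Pm_pow_row hn m (by omega), if_neg (by have := j.2; change ¬ ((j : ℕ) - 1 = m); omega)]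

namespace Cyc

variable (f)

/-- `R ⊗ L` in the cyclic algebra -/
noncomputable def dl (h : IsGen σ n) : (R ⊗[k] L) →ₐ[R] Cyc σ n f :=
  (dlM σ n).codRestrict (Cyc σ n f) fun z => dlM_mem h z

/-- the generator `e` -/
noncomputable def e (σ : L ≃ₐ[k] L) (n : ℕ) (f : R) : Cyc σ n f := ⟨Pm (k := k) L n f, Pm_mem⟩

theorem e_mul_dl (h : IsGen σ n) (z : R ⊗[k] L) : e σ n f * dl f h z = dl f h (sg R σ z) * e σ n f :=
  Subtype.ext (Pm_dlM h z)

theorem e_pow_mul_dl (h : IsGen σ n) (j : ℕ) (z : R ⊗[k] L) :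
    e σ n f ^ j * dl f h z = dl f h (((sg R σ) ^ j) z) * e σ n f ^ j := by
  induction j with
  | zero => rw [pow_zero, pow_zero, one_mul, mul_one]; rfl
  | succ j ih => rw [pow_succ', mul_assoc, ih, ← mul_assoc, e_mul_dl, mul_assoc, pow_succ',
      AlgEquiv.mul_apply]

theorem e_pow_n (h : IsGen σ n) : e σ n f ^ n = algebraMap R (Cyc σ n f) f :=
  Subtype.ext (Pm_pow_n h)

/-- The cyclic algebra is the direct sum of the `(R ⊗ L) e^j`: the first row gives the coefficients. -/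
noncomputable def equiv (h : IsGen σ n) : Cyc σ n f ≃ₗ[R] (Fin n → R ⊗[k] L) where
  toFun X j := (X : Matrix (Fin n) (Fin n) (R ⊗[k] L)) ⟨0, h.2.2⟩ j
  map_add' X Y := rfl
  map_smul' r X := rfl
  invFun z := ∑ j : Fin n, dl f h (z j) * e σ n f ^ (j : ℕ)
  left_inv X := by
    refine Subtype.ext (Cyc_ext (σ := σ) (f := f) (Subtype.property _) X.2 h.2.2 fun j => ?_)
    rw [AddSubmonoidClass.coe_finsetSum]
    exact sum_row h.2.2 _ j
  right_inv z := by
    ext j
    change ((∑ j : Fin n, dl f h (z j) * e σ n f ^ (j : ℕ) : Cyc σ n f) :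
      Matrix (Fin n) (Fin n) (R ⊗[k] L)) ⟨0, h.2.2⟩ j = z j
    rw [AddSubmonoidClass.coe_finsetSum]
    exact sum_row h.2.2 _ j

theorem equiv_symm_apply (h : IsGen σ n) (z : Fin n → R ⊗[k] L) :
    (equiv f h).symm z = ∑ j : Fin n, dl f h (z j) * e σ n f ^ (j : ℕ) := rfl

theorem equiv_apply (h : IsGen σ n) (X : Cyc σ n f) (j : Fin n) :
    equiv f h X j = (X : Matrix (Fin n) (Fin n) (R ⊗[k] L)) ⟨0, h.2.2⟩ j := rfl

theorem eq_sum (h : IsGen σ n) (X : Cyc σ n f) :
    X = ∑ j : Fin n, dl f h (equiv f h X j) * e σ n f ^ (j : ℕ) :=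
  ((equiv f h).symm_apply_apply X).symm

end Cyc

end

end Pool.Agent.Q33.SB
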