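import Mathlib

/-!
# Project SB (row MP_ad201b_nt): sections of fundamental groups and the Brauer-Manin set

Definitions.

* `CoordRing`: the coordinate ring `ℚ[u, u⁻¹, w] / (w² - u⁴ - 1)` of the affine curve `X`, the elliptic
  curve `w² = u⁴ + 1` without its four rational points.
* `Pi1 x`: the etale fundamental group, `LiesOver`: the projection to the Galois group of `ℚ`,
  `Splits`: the projection has a continuous section.
* `AdelicPoint`: the adelic points of `X`.
* `Split K P B`: the fibre of the algebra `B` at the point `P` is a matrix algebra over `K`.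
* `Inv`, `BrauerManinSet`: local invariants and the Brauer-Manin set.
* `Cyc`: cyclic algebras.
-/

set_option autoImplicit false

open scoped TensorProduct
open CategoryTheory

namespace Pool.Agent.Q33.SB

/-! ### The curve -/

/-- The coordinate ring of the curve `X`: the ring `ℚ[u, u⁻¹][w] / (w² - u⁴ - 1)`. -/
abbrev CoordRing : Type :=
  AdjoinRoot (Polynomial.X ^ 2 - Polynomial.C (LaurentPolynomial.T 4 + 1) :
    Polynomial (LaurentPolynomial ℚ))

/-- the function `u` on `X` -/
noncomputable def uX : CoordRing := AdjoinRoot.of _ (LaurentPolynomial.T 1)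

/-- the function `w` on `X` -/
noncomputable def wX : CoordRing := AdjoinRoot.root _

/-- The adelic points of `X`: a point over each `ℚ_p` and a point over `ℝ`, such that every regular
function on `X` takes `p`-adic integral values at them for all but finitely many `p`. -/
structure AdelicPoint where
  fin : ∀ (p : ℕ) [Fact p.Prime], CoordRing →+* ℚ_[p]
  inf : CoordRing →+* ℝ
  integral : ∀ r : CoordRing, {p : ℕ | ∃ _ : Fact p.Prime, ¬ ‖fin p r‖ ≤ 1}.Finite

/-! ### Fundamental groups -/

/-- the absolute Galois group of `ℚ` -/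
abbrev GalQ : Type := AlgebraicClosure ℚ ≃ₐ[ℚ] AlgebraicClosure ℚ

/-- the finite etale covers of the scheme `U` -/
def FinEt (U : AlgebraicGeometry.Scheme.{0}) : ObjectProperty (Over U) :=
  fun Y => AlgebraicGeometry.IsFinite Y.hom ∧ AlgebraicGeometry.Etale Y.hom

/-- The fibre functor at `x : T ⟶ U`: it sends a finite etale cover `Y` of `U` to the set of the
`T`-points of `Y` over `x`. Here `T` will be the spectrum of an algebraically closed field. -/
abbrev fibreFunctor {U T : AlgebraicGeometry.Scheme.{0}} (x : T ⟶ U) :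
    (FinEt U).FullSubcategory ⥤ Type :=
  (FinEt U).ι ⋙ coyoneda.obj (Opposite.op (Over.mk x))

/-- The etale fundamental group `π₁(U, x)`: the automorphism group of the fibre functor. -/
abbrev Pi1 {U T : AlgebraicGeometry.Scheme.{0}} (x : T ⟶ U) : Type 1 := Aut (fibreFunctor x)

/-- The action of an element of the fundamental group on the fibre of a cover `Y`. -/
def Pi1.act {U T : AlgebraicGeometry.Scheme.{0}} {x : T ⟶ U} (γ : Pi1 x)
    (Y : (FinEt U).FullSubcategory) (y : (fibreFunctor x).obj Y) : (fibreFunctor x).obj Y :=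
  γ.hom.app Y y

/-- The element `γ` of the fundamental group of the `ℚ`-scheme `U` lies over `σ ∈ Gal(ℚ̄/ℚ)`, that is,
`p_U(γ) = σ`.  The geometric point is `x : Spec Ω ⟶ U`, and `ι : ℚ̄ → Ω`.  For every cover `Y` of `U`,
every morphism `g` of `Y` to a `ℚ`-scheme `Z` finite etale over `ℚ` (`U × Z` is such a `Y`), if the
point `y` of the fibre of `Y` is mapped to the point `z` of `Z(ℚ̄)`, then `γ y` is mapped to `σ z`. -/
def LiesOver {U : AlgebraicGeometry.Scheme.{0}} (str : U ⟶ AlgebraicGeometry.Spec (.of ℚ))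
    {Ω : Type} [Field Ω] {x : AlgebraicGeometry.Spec (.of Ω) ⟶ U} (ι : AlgebraicClosure ℚ →+* Ω)
    (γ : Pi1 x) (σ : GalQ) : Prop :=
  ∀ (Y : (FinEt U).FullSubcategory)
    (Z : (FinEt (AlgebraicGeometry.Spec (.of ℚ))).FullSubcategory)
    (g : Y.obj.left ⟶ Z.obj.left), g ≫ Z.obj.hom = Y.obj.hom ≫ str →
    ∀ (y : (fibreFunctor x).obj Y)
      (z : AlgebraicGeometry.Spec (.of (AlgebraicClosure ℚ)) ⟶ Z.obj.left),
      CommaMorphism.left y ≫ g = AlgebraicGeometry.Spec.map (CommRingCat.ofHom ι) ≫ z →
      CommaMorphism.left (γ.act Y y) ≫ g = AlgebraicGeometry.Spec.map (CommRingCat.ofHom ι) ≫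
        AlgebraicGeometry.Spec.map (CommRingCat.ofHom (σ : AlgebraicClosure ℚ →+* AlgebraicClosure ℚ))
          ≫ z

/-- The projection `p_U : π₁(U, x) → Gal(ℚ̄/ℚ)` has a splitting: for a geometric point `x` of `U`
there is a homomorphism `s` from `Gal(ℚ̄/ℚ)` to `π₁(U, x)` with `p_U ∘ s = id` which is continuous,
that is, the stabilizers of the points of the fibres are open. -/
def Splits (U : AlgebraicGeometry.Scheme.{0}) (str : U ⟶ AlgebraicGeometry.Spec (.of ℚ)) : Prop :=
  ∃ (Ω : Type) (_ : Field Ω) (_ : IsAlgClosed Ω) (x : AlgebraicGeometry.Spec (.of Ω) ⟶ U)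
    (ι : AlgebraicClosure ℚ →+* Ω) (s : GalQ →* Pi1 x),
    (∀ (Y : (FinEt U).FullSubcategory) (y : (fibreFunctor x).obj Y),
      IsOpen {σ : GalQ | (s σ).act Y y = y}) ∧
    ∀ σ : GalQ, LiesOver str ι (s σ) σ

/-- `X` satisfies the splitting condition: for every nonempty (so dense) open subscheme `U` of the
affine curve `X` the projection `p_U` has a splitting. -/
def SplittingCondition (R : Type) [CommRing R] [Algebra ℚ R] : Prop :=
  ∀ U : (AlgebraicGeometry.Spec (.of R)).Opens, U ≠ ⊥ →
    Splits U.toScheme (U.ι ≫ AlgebraicGeometry.Spec.map (CommRingCat.ofHom (algebraMap ℚ R)))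

/-! ### Algebras and the Brauer-Manin set -/

/-- The fibre `K ⊗_R B` of the `R`-algebra `B` at the point `P : R → K` is a matrix algebra over the
field `K`. -/
def Split {R : Type} [CommRing R] (K : Type) [Field K] (P : R →+* K) (B : Type) [Ring B]
    [Algebra R B] : Prop :=
  letI := P.toAlgebra
  ∃ n : ℕ, Nonempty ((K ⊗[R] B) ≃ₐ[K] Matrix (Fin n) (Fin n) K)

/-- A local invariant: a function on the `K`-algebras with values in `ℚ/ℤ` which is zero exactly for
the matrix algebras over `K`.  The invariant maps `inv_v : Br(K_v) → ℚ/ℤ` of local class field theory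
are injective, so they give such functions (with any nonzero values for algebras which are not central
simple). -/
structure Inv (K : Type) [Field K] where
  inv : ∀ (B : Type) [Ring B] [Algebra K B], AddCircle (1 : ℚ)
  zero_iff : ∀ (B : Type) [Ring B] [Algebra K B],
    inv B = 0 ↔ ∃ n : ℕ, Nonempty (B ≃ₐ[K] Matrix (Fin n) (Fin n) K)

/-- the invariant of the fibre of `B` at `P` -/
def Inv.at {R : Type} [CommRing R] {K : Type} [Field K] (i : Inv K) (P : R →+* K) (B : Type)
    [Ring B] [Algebra R B] : AddCircle (1 : ℚ) :=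
  letI := P.toAlgebra
  i.inv (K ⊗[R] B)

open scoped Classical in
/-- The Brauer-Manin set of `X` for the local invariants `iv`, `ir`: the adelic points `P` for which
`∑_v inv_v (B(P_v)) = 0` for every Azumaya algebra `B` on `X`. -/
def BrauerManinSet (iv : ∀ (p : ℕ) [Fact p.Prime], Inv ℚ_[p]) (ir : Inv ℝ) : Set AdelicPoint :=
  {P | ∀ (B : Type) [Ring B] [Algebra CoordRing B] [IsAzumaya CoordRing B],
    (∑ᶠ p : ℕ, if h : p.Prime then (haveI : Fact p.Prime := ⟨h⟩; (iv p).at (P.fin p) B) else 0) +
      ir.at P.inf B = 0}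

/-! ### Cyclic algebras -/

section cyc

variable {k : Type} [Field k] (R : Type) [CommRing R] [Algebra k R] {L : Type} [Field L] [Algebra k L]

/-- the automorphism `1 ⊗ σ` of `R ⊗ L` -/
noncomputable def sg (σ : L ≃ₐ[k] L) : (R ⊗[k] L) ≃ₐ[R] (R ⊗[k] L) :=
  Algebra.TensorProduct.congr AlgEquiv.refl σ

/-- the product of the first `n` conjugates of `y ∈ R ⊗ L` under `1 ⊗ σ`; this is the norm if `σ` generates
the Galois group of `L/k` and `n = [L : k]` -/
noncomputable def nr (σ : L ≃ₐ[k] L) (n : ℕ) (y : R ⊗[k] L) : R ⊗[k] L :=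
  ∏ i ∈ Finset.range n, ((sg R σ) ^ i) y

variable {R}

/-- The matrix of the generator `e` of the cyclic algebra: `1` at the places `(i, i + 1)` and `f` at the
place `(n - 1, 0)`. -/
noncomputable def Pm (L : Type) [Field L] [Algebra k L] (n : ℕ) (f : R) :
    Matrix (Fin n) (Fin n) (R ⊗[k] L) :=
  Matrix.of fun i j => if (i : ℕ) + 1 = j then 1 else
    if (i : ℕ) + 1 = n ∧ (j : ℕ) = 0 then algebraMap R (R ⊗[k] L) f else 0

/-- The cyclic algebra `⨁_{i < n} (R ⊗ L) e^i` with `e x = σ(x) e`, `e^n = f`, as an algebra of matrices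
over `R ⊗ L`: `x ∈ R ⊗ L` is the diagonal matrix with the entries `σ^i(x)`, `e` is the matrix `Pm`. -/
noncomputable def Cyc (σ : L ≃ₐ[k] L) (n : ℕ) (f : R) :
    Subalgebra R (Matrix (Fin n) (Fin n) (R ⊗[k] L)) where
  carrier := {X | Pm L n f * X = X.map (sg R σ) * Pm L n f}
  mul_mem' {X Y} hX hY := by
    have hX' : Pm L n f * X = X.map (sg R σ) * Pm L n f := hX
    have hY' : Pm L n f * Y = Y.map (sg R σ) * Pm L n f := hY
    change Pm L n f * (X * Y) = (X * Y).map (sg R σ) * Pm L n f
    rw [← Matrix.mul_assoc, hX', Matrix.mul_assoc, hY', ← Matrix.mul_assoc, Matrix.map_mul]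
  add_mem' {X Y} hX hY := by
    have hX' : Pm L n f * X = X.map (sg R σ) * Pm L n f := hX
    have hY' : Pm L n f * Y = Y.map (sg R σ) * Pm L n f := hY
    change Pm L n f * (X + Y) = (X + Y).map (sg R σ) * Pm L n f
    rw [Matrix.mul_add, hX', hY', ← Matrix.add_mul]
    congr 1
    ext i j
    simp
  algebraMap_mem' r := by
    change Pm L n f * algebraMap R _ r = (algebraMap R (Matrix (Fin n) (Fin n) (R ⊗[k] L)) r).map
      (sg R σ) * Pm L n f
    have h : (algebraMap R (Matrix (Fin n) (Fin n) (R ⊗[k] L)) r).map (sg R σ) =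
        algebraMap R (Matrix (Fin n) (Fin n) (R ⊗[k] L)) r := by
      ext i j
      rw [Matrix.map_apply, Matrix.algebraMap_matrix_apply]
      split_ifs
      · exact (sg R σ).commutes r
      · exact map_zero _
    rw [h]
    exact (Algebra.commutes r _).symm

/-- `σ` generates the Galois group of `L/k`, which has order `n` -/
def IsGen (σ : L ≃ₐ[k] L) (n : ℕ) : Prop :=
  Module.finrank k L = n ∧ orderOf σ = n ∧ 0 < n

end cyc

end Pool.Agent.Q33.SB
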