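import Pool.Agent.Q33.SB.Stm
import Pool.Agent.Q33.SB.Bas

/-!
# Project SB: assembly
-/

set_option autoImplicit false

open scoped TensorProduct NumberField

namespace Pool.Agent.Q33.SB

theorem T_unit : (LaurentPolynomial.T 1 : LaurentPolynomial ℚ) * LaurentPolynomial.T (-1) = 1 := by
  rw [← LaurentPolynomial.T_add]
  simp

/-- the inverse of `u` -/
noncomputable def uXi : CoordRing := AdjoinRoot.of _ (LaurentPolynomial.T (-1))

theorem uX_mul : uX * uXi = 1 := by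
  unfold uX uXi
  rw [← map_mul, T_unit, map_one]

theorem uXi_mul : uXi * uX = 1 := by rw [mul_comm, uX_mul]

theorem wX_sq : wX ^ 2 = uX ^ 4 + 1 := by
  have h := AdjoinRoot.eval₂_root (Polynomial.X ^ 2 - Polynomial.C (LaurentPolynomial.T 4 + 1) :
    Polynomial (LaurentPolynomial ℚ))
  rw [Polynomial.eval₂_sub, Polynomial.eval₂_pow, Polynomial.eval₂_X, Polynomial.eval₂_C,
    sub_eq_zero] at h
  have h2 : uX ^ 4 = AdjoinRoot.of _ (LaurentPolynomial.T 4) := by
    unfold uX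
    rw [← map_pow, LaurentPolynomial.T_pow]
    norm_num
  rw [h2]
  unfold wX
  rw [h, map_add, map_one]

/-- the unit `u / e` -/
noncomputable def fu (e : ℚ) (he : e ≠ 0) : CoordRingˣ where
  val := uX * algebraMap ℚ CoordRing e⁻¹
  inv := uXi * algebraMap ℚ CoordRing e
  val_inv := by
    have : algebraMap ℚ CoordRing e⁻¹ * algebraMap ℚ CoordRing e = 1 := by
      rw [← map_mul, inv_mul_cancel₀ he, map_one]
    calc uX * algebraMap ℚ CoordRing e⁻¹ * (uXi * algebraMap ℚ CoordRing e)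
        = (uX * uXi) * (algebraMap ℚ CoordRing e⁻¹ * algebraMap ℚ CoordRing e) := by ring
      _ = 1 := by rw [this, uX_mul, one_mul]
  inv_val := by
    have : algebraMap ℚ CoordRing e⁻¹ * algebraMap ℚ CoordRing e = 1 := by
      rw [← map_mul, inv_mul_cancel₀ he, map_one]
    calc uXi * algebraMap ℚ CoordRing e * (uX * algebraMap ℚ CoordRing e⁻¹)
        = (uX * uXi) * (algebraMap ℚ CoordRing e⁻¹ * algebraMap ℚ CoordRing e) := by ring
      _ = 1 := by rw [this, uX_mul, one_mul]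

theorem hom_rat {K : Type} [Field K] [Algebra ℚ K] (P : CoordRing →+* K) (a : ℚ) :
    P (algebraMap ℚ CoordRing a) = algebraMap ℚ K a := by
  have h : P.comp (algebraMap ℚ CoordRing) = algebraMap ℚ K := Subsingleton.elim _ _
  exact RingHom.congr_fun h a

theorem hom_fu {K : Type} [Field K] [Algebra ℚ K] (P : CoordRing →+* K) (e : ℚ) (he : e ≠ 0) :
    P (fu e he : CoordRing) = P uX / (algebraMap ℚ K e) := by
  change P (uX * algebraMap ℚ CoordRing e⁻¹) = _
  rw [map_mul, hom_rat, map_inv₀, div_eq_mul_inv]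

theorem hom_ne {K : Type} [Field K] (P : CoordRing →+* K) : P uX ≠ 0 := by
  intro h
  have h2 := congrArg P uX_mul
  rw [map_mul, h, zero_mul, map_one] at h2
  exact zero_ne_one h2

theorem nr_algebraMap {K L : Type} [Field K] [Algebra ℚ K] [Field L] [Algebra ℚ L] (σ : L ≃ₐ[ℚ] L)
    (n : ℕ) (z : K) : nr K σ n (algebraMap K (K ⊗[ℚ] L) z) = algebraMap K _ (z ^ n) := by
  unfold nr
  have : ∀ i ∈ Finset.range n, ((sg K σ) ^ i) (algebraMap K (K ⊗[ℚ] L) z) = algebraMap K _ z :=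
    fun i _ => AlgEquiv.commutes _ z
  rw [Finset.prod_congr rfl this, Finset.prod_const, Finset.card_range, map_pow]

/-- for every adelic point there is a cyclic algebra which is split at all places except one -/
theorem exists_azumaya (hLIN : S_LIN) (hAZU : S_AZU) (hSPL : S_SPL) (hNSP : S_NSP) (hGEN : S_GEN)
    (hNUN : S_NUN) (hNMI : S_NMI) (hNON : S_NON) (hFLD : S_FLD) (hARI : S_ARI) (hDOM : S_DOM)
    (P : AdelicPoint) :
    ∃ (B : Type) (_ : Ring B) (_ : Algebra CoordRing B) (p : ℕ) (_ : Fact p.Prime),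
      IsAzumaya CoordRing B ∧ ¬ Split ℚ_[p] (P.fin p) B ∧
      (∀ (q : ℕ) [Fact q.Prime], q ≠ p → Split ℚ_[q] (P.fin q) B) ∧ Split ℝ P.inf B := by
  have hdom : IsDomain CoordRing := hDOM.2.1
  obtain ⟨e, he, hr, hc, p, m, hp, hp2, hm, hbig⟩ := hARI (fun p _ => P.fin p uX) (P.inf uX)
    (fun p _ => hom_ne _) (hom_ne _) (by
      refine ((P.integral uX).union (P.integral uXi)).subset ?_
      rintro p ⟨hp, hne⟩
      by_contra hcon
      rw [Set.mem_union, not_or] at hcon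
      have h1 : ‖P.fin p uX‖ ≤ 1 := by
        by_contra h
        exact hcon.1 ⟨hp, h⟩
      have h2 : ‖P.fin p uXi‖ ≤ 1 := by
        by_contra h
        exact hcon.2 ⟨hp, h⟩
      have h3 : ‖P.fin p uX‖ * ‖P.fin p uXi‖ = 1 := by
        rw [← norm_mul, ← map_mul, uX_mul, map_one, norm_one]
      apply hne
      refine le_antisymm h1 ?_
      nlinarith [norm_nonneg (P.fin p uX), norm_nonneg (P.fin p uXi)])
    (fun p _ => ⟨P.fin p wX, by rw [← map_pow, wX_sq, map_add, map_pow, map_one]⟩)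
  have hpm : NeZero (p ^ m) := ⟨pow_ne_zero _ hp.out.ne_zero⟩
  have hpmq : NeZero (((p ^ m : ℕ)) : ℚ) := ⟨Nat.cast_ne_zero.2 (pow_ne_zero _ hp.out.ne_zero)⟩
  have hcyc : IsCyclotomicExtension {p ^ m} ℚ (CyclotomicField (p ^ m) ℚ) :=
    CyclotomicField.isCyclotomicExtension (p ^ m) ℚ
  have hnf : NumberField (CyclotomicField (p ^ m) ℚ) :=
    IsCyclotomicExtension.numberField {p ^ m} ℚ (CyclotomicField (p ^ m) ℚ)
  obtain ⟨σ, n, hσ⟩ := hGEN p m (CyclotomicField (p ^ m) ℚ) hp2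
  have hval : ∀ (K : Type) [Field K] [Algebra ℚ K] (Q : CoordRing →+* K),
      Q (fu e he : CoordRing) = Q uX / (algebraMap ℚ K e) := fun K _ _ Q => hom_fu Q e he
  have hn0 : ∀ (K : Type) [Field K] (Q : CoordRing →+* K), Q (fu e he : CoordRing) ≠ 0 :=
    fun K _ Q => ((fu e he).isUnit.map Q).ne_zero
  refine ⟨Cyc σ n (fu e he : CoordRing), inferInstance, inferInstance, p, hp,
    hAZU hLIN ℚ CoordRing _ σ n hσ (fu e he), ?_, ?_, ?_⟩
  · intro hs
    obtain ⟨y, hy⟩ := hNSP ℚ CoordRing (CyclotomicField (p ^ m) ℚ) ℚ_[p] σ n hσ _ (P.fin p)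
      (hom_rat _) (hFLD p m (CyclotomicField (p ^ m) ℚ) hm) hs
    rw [hval] at hy
    have h1 := hNON hNMI p m n (CyclotomicField (p ^ m) ℚ) σ hp2 hm hσ _ y (hc p) hy
    exact absurd h1 (not_le.2 hbig)
  · intro q hq hqp
    obtain ⟨y, hy⟩ := hNUN q p m n (CyclotomicField (p ^ m) ℚ) σ hqp hσ _ (hc q)
    refine hSPL hLIN ℚ CoordRing (CyclotomicField (p ^ m) ℚ) ℚ_[q] σ n hσ _ (P.fin q) (hom_rat _)
      (hn0 _ _) y ?_
    rw [hval]
    exact hy
  · have hb : 0 < P.inf (fu e he : CoordRing) := by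
      rw [hval]
      exact hr
    refine hSPL hLIN ℚ CoordRing (CyclotomicField (p ^ m) ℚ) ℝ σ n hσ _ P.inf (hom_rat _)
      (hn0 _ _) (algebraMap ℝ _ ((P.inf (fu e he : CoordRing)) ^ ((n : ℝ)⁻¹))) ?_
    rw [nr_algebraMap, Real.rpow_inv_natCast_pow hb.le hσ.2.2.ne']

/-- the Brauer-Manin set is empty -/
theorem brauerManinSet_empty
    (h : ∀ P : AdelicPoint, ∃ (B : Type) (_ : Ring B) (_ : Algebra CoordRing B) (p : ℕ)
      (_ : Fact p.Prime), IsAzumaya CoordRing B ∧ ¬ Split ℚ_[p] (P.fin p) B ∧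
      (∀ (q : ℕ) [Fact q.Prime], q ≠ p → Split ℚ_[q] (P.fin q) B) ∧ Split ℝ P.inf B)
    (iv : ∀ (p : ℕ) [Fact p.Prime], Inv ℚ_[p]) (ir : Inv ℝ) : BrauerManinSet iv ir = ∅ := by
  rw [Set.eq_empty_iff_forall_notMem]
  intro P hP
  obtain ⟨B, _, _, p, hp, hA, hns, hs, hsR⟩ := h P
  have h0 := hP B
  have hzR : ir.at P.inf B = 0 := by
    unfold Inv.at
    exact (ir.zero_iff _).2 hsR
  have hzp : ∀ q : ℕ, q ≠ p → (open Classical in
      (if h : q.Prime then (haveI : Fact q.Prime := ⟨h⟩; (iv q).at (P.fin q) B) else 0)) = 0 := by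
    intro q hq
    split_ifs with h
    · have : Fact q.Prime := ⟨h⟩
      unfold Inv.at
      exact ((iv q).zero_iff _).2 (hs q hq)
    · rfl
  rw [finsum_eq_single _ p hzp, hzR, add_zero, dif_pos hp.out] at h0
  apply hns
  unfold Inv.at at h0
  exact ((iv p).zero_iff _).1 h0

end Pool.Agent.Q33.SB
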