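import Pool.Agent.Q33.SB.Stm
import Pool.Agent.Q33.SB.Bas

/-!
# Project SB, job SPL: the fibre of the cyclic algebra is split if `P f` is a norm
-/

set_option autoImplicit false

open scoped TensorProduct

namespace Pool.Agent.Q33.SB

/-- A criterion for the splitting of a fibre. -/
theorem split_of_hom {R : Type} [CommRing R] {K : Type} [Field K] (P : R →+* K) (B : Type) [Ring B]
    [Algebra R B] [Module.Free R B] [Module.Finite R B] (E : Type) [Ring E] [Algebra K E]
    [Module.Finite K E] (ψ : B →+* E)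
    (hψ : ∀ r, ψ (algebraMap R B r) = algebraMap K E (P r))
    (hdim : Module.finrank R B = Module.finrank K E)
    (hsurj : Submodule.span K (Set.range ψ) = ⊤) (n : ℕ) (ε : E ≃ₐ[K] Matrix (Fin n) (Fin n) K) :
    Split K P B := by
  let _ : Algebra R K := P.toAlgebra
  let _ : Algebra R E := Algebra.compHom E P
  have : IsScalarTower R K E := IsScalarTower.of_algebraMap_eq fun r => rfl
  let g : B →ₐ[R] E := { ψ with commutes' := hψ }
  let Φ : K ⊗[R] B →ₐ[K] E := Algebra.TensorProduct.lift (Algebra.ofId K E) g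
    fun a b => Algebra.commutes a (g b)
  have hs : Function.Surjective Φ := by
    rw [← AlgHom.coe_toLinearMap, ← LinearMap.range_eq_top, ← top_le_iff, ← hsurj,
      Submodule.span_le]
    rintro _ ⟨b, rfl⟩
    refine ⟨1 ⊗ₜ b, ?_⟩
    have h1 : Φ (1 ⊗ₜ b) = Algebra.ofId K E 1 * g b := Algebra.TensorProduct.lift_tmul _ _ _ _ _
    rw [map_one, one_mul] at h1
    exact h1
  have hR : Nontrivial R := P.domain_nontrivial
  have hd : Module.finrank K (K ⊗[R] B) = Module.finrank K E := by
    rw [Module.finrank_baseChange, hdim]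
  have hi : Function.Injective Φ := by
    have h := (LinearMap.injective_iff_surjective_of_finrank_eq_finrank (f := Φ.toLinearMap) hd).2
    exact h hs
  exact ⟨n, ⟨(AlgEquiv.ofBijective Φ ⟨hi, hs⟩).trans ε⟩⟩

section

variable {k : Type} [Field k] {R : Type} [CommRing R] [Algebra k R] {L : Type} [Field L] [Algebra k L]
  {K : Type} [Field K] [Algebra k K] {σ : L ≃ₐ[k] L} {n : ℕ}

theorem Cyc_free (f : R) (h : IsGen σ n) : Module.Free R (Cyc σ n f) :=
  Module.Free.of_equiv (Cyc.equiv f h).symm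

theorem finiteDimensional_of_isGen (h : IsGen σ n) : FiniteDimensional k L :=
  Module.finite_of_finrank_pos (h.1 ▸ h.2.2)

theorem Cyc_finite (f : R) (h : IsGen σ n) : Module.Finite R (Cyc σ n f) := by
  have := finiteDimensional_of_isGen h
  exact Module.Finite.equiv (Cyc.equiv f h).symm

theorem Cyc_finrank [Nontrivial R] (f : R) (h : IsGen σ n) :
    Module.finrank R (Cyc σ n f) = n * n := by
  have := finiteDimensional_of_isGen h
  rw [(Cyc.equiv f h).finrank_eq, Module.finrank_pi_fintype]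
  rw [Finset.sum_const, Finset.card_univ, Fintype.card_fin, smul_eq_mul, Module.finrank_baseChange,
    h.1]

/-- `z ↦ y σ(z)` on `K ⊗ L` -/
noncomputable def Sy (σ : L ≃ₐ[k] L) (y : K ⊗[k] L) : Module.End K (K ⊗[k] L) :=
  LinearMap.mulLeft K y ∘ₗ (sg K σ).toLinearMap

theorem Sy_apply (y z : K ⊗[k] L) : Sy σ y z = y * sg K σ z := rfl

/-- the product of the first `j` conjugates -/
theorem Sy_pow_apply (y : K ⊗[k] L) (j : ℕ) (z : K ⊗[k] L) :
    (Sy σ y ^ j) z = nr K σ j y * ((sg K σ) ^ j) z := by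
  induction j generalizing z with
  | zero => simp [nr]
  | succ j ih =>
    rw [pow_succ, Module.End.mul_apply, Sy_apply, ih, map_mul, ← mul_assoc]
    unfold nr
    rw [Finset.prod_range_succ, pow_succ, AlgEquiv.mul_apply]

theorem Sy_mul (y c : K ⊗[k] L) (j : ℕ) :
    Sy σ y ^ j * LinearMap.mulLeft K c = LinearMap.mulLeft K (((sg K σ) ^ j) c) * Sy σ y ^ j := by
  refine LinearMap.ext fun z => ?_
  change ((Sy σ y ^ j) (c * z) : K ⊗[k] L) = (((sg K σ) ^ j) c) * (Sy σ y ^ j) z
  rw [Sy_pow_apply, Sy_pow_apply, map_mul]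
  ring

theorem Sy_pow_n (h : IsGen σ n) {y : K ⊗[k] L} {b : K} (hy : nr K σ n y = algebraMap K _ b) :
    Sy σ y ^ n = algebraMap K (Module.End K (K ⊗[k] L)) b := by
  refine LinearMap.ext fun z => ?_
  rw [Sy_pow_apply, hy, sg_pow_n h, AlgEquiv.one_apply, Module.algebraMap_end_apply,
    Algebra.smul_def]

variable (P : R →+* K) (hP : ∀ a : k, P (algebraMap k R a) = algebraMap k K a)

/-- the map `R ⊗ L → K ⊗ L` -/
noncomputable def fib : (R ⊗[k] L) →ₐ[k] (K ⊗[k] L) :=
  Algebra.TensorProduct.map { P with commutes' := hP } (AlgHom.id k L)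

theorem fib_tmul (r : R) (x : L) : fib (L := L) P hP (r ⊗ₜ x) = P r ⊗ₜ x := rfl

theorem fib_algebraMap (r : R) : fib (L := L) P hP (algebraMap R _ r) = algebraMap K _ (P r) := rfl

theorem fib_sg (z : R ⊗[k] L) : fib P hP (sg R σ z) = sg K σ (fib P hP z) := by
  induction z with
  | zero => simp
  | add x y hx hy => rw [map_add, map_add, hx, hy, map_add, map_add]
  | tmul r x => rfl

theorem fib_sg_pow (j : ℕ) (z : R ⊗[k] L) :
    fib P hP (((sg R σ) ^ j) z) = ((sg K σ) ^ j) (fib P hP z) := by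
  induction j with
  | zero => rfl
  | succ j ih => rw [pow_succ', pow_succ', AlgEquiv.mul_apply, AlgEquiv.mul_apply, fib_sg, ih]

variable (f : R) (h : IsGen σ n) (y : K ⊗[k] L)

/-- the action of the cyclic algebra on `K ⊗ L` -/
noncomputable def act (X : Cyc σ n f) : Module.End K (K ⊗[k] L) :=
  ∑ j : Fin n, LinearMap.mulLeft K (fib P hP (Cyc.equiv f h X j)) * Sy σ y ^ (j : ℕ)

theorem act_add (X Y : Cyc σ n f) : act P hP f h y (X + Y) = act P hP f h y X + act P hP f h y Y := by
  unfold act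
  rw [← Finset.sum_add_distrib]
  refine Finset.sum_congr rfl fun j _ => ?_
  rw [map_add, Pi.add_apply, map_add, ← add_mul]
  congr 1
  refine LinearMap.ext fun z => ?_
  change _ * z = _ * z + _ * z
  rw [add_mul]

theorem act_zero : act P hP f h y 0 = 0 := by
  have := act_add P hP f h y 0 0
  rw [add_zero] at this
  exact left_eq_add.1 this

theorem act_sum {ι : Type*} (s : Finset ι) (X : ι → Cyc σ n f) :
    act P hP f h y (∑ i ∈ s, X i) = ∑ i ∈ s, act P hP f h y (X i) := by
  classical
  induction s using Finset.induction_on with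
  | empty => rw [Finset.sum_empty, Finset.sum_empty, act_zero]
  | insert a s ha ih => rw [Finset.sum_insert ha, Finset.sum_insert ha, act_add, ih]

theorem act_dl_pow_lt (a : R ⊗[k] L) (j : ℕ) (hj : j < n) :
    act P hP f h y (Cyc.dl f h a * Cyc.e σ n f ^ j) =
      LinearMap.mulLeft K (fib P hP a) * Sy σ y ^ j := by
  have h1 : Cyc.equiv f h (Cyc.dl f h a * Cyc.e σ n f ^ j) = Pi.single (⟨j, hj⟩ : Fin n) a := by
    rw [← LinearEquiv.eq_symm_apply, Cyc.equiv_symm_apply, Finset.sum_eq_single (⟨j, hj⟩ : Fin n)]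
    · rw [Pi.single_eq_same]
    · intro b _ hb
      rw [Pi.single_eq_of_ne hb, map_zero, zero_mul]
    · intro hc; exact absurd (Finset.mem_univ _) hc
  unfold act
  rw [h1, Finset.sum_eq_single (⟨j, hj⟩ : Fin n)]
  · rw [Pi.single_eq_same]
  · intro b _ hb
    rw [Pi.single_eq_of_ne hb, map_zero]
    refine LinearMap.ext fun z => ?_
    change (0 : K ⊗[k] L) * _ = 0
    rw [zero_mul]
  · intro hc; exact absurd (Finset.mem_univ _) hc

variable (hy : nr K σ n y = algebraMap K _ (P f))

include hy in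
theorem act_dl_pow (a : R ⊗[k] L) (j : ℕ) :
    act P hP f h y (Cyc.dl f h a * Cyc.e σ n f ^ j) =
      LinearMap.mulLeft K (fib P hP a) * Sy σ y ^ j := by
  induction j using Nat.strong_induction_on generalizing a with
  | _ j ih =>
    by_cases hj : j < n
    · exact act_dl_pow_lt P hP f h y a j hj
    · obtain ⟨m, rfl⟩ : ∃ m, j = m + n := ⟨j - n, by omega⟩
      have h1 : Cyc.dl f h a * Cyc.e σ n f ^ (m + n) =
          Cyc.dl f h (a * algebraMap R _ f) * Cyc.e σ n f ^ m := by
        rw [pow_add, Cyc.e_pow_n f h, map_mul, AlgHom.commutes, mul_assoc, Algebra.commutes]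
      rw [h1, ih m (by have := h.2.2; omega), map_mul, fib_algebraMap, pow_add, Sy_pow_n h hy]
      refine LinearMap.ext fun z => ?_
      change (fib P hP a * algebraMap K _ (P f)) * (Sy σ y ^ m) z = fib P hP a * (Sy σ y ^ m)
        ((P f) • z)
      rw [map_smul, Algebra.smul_def, mul_assoc]

include hy in
theorem act_mul (X Y : Cyc σ n f) : act P hP f h y (X * Y) = act P hP f h y X * act P hP f h y Y := by
  rw [Cyc.eq_sum f h X, Cyc.eq_sum f h Y, Finset.sum_mul, act_sum, act_sum, act_sum, Finset.sum_mul]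
  refine Finset.sum_congr rfl fun i _ => ?_
  rw [Finset.mul_sum, act_sum, Finset.mul_sum]
  refine Finset.sum_congr rfl fun j _ => ?_
  rw [act_dl_pow P hP f h y hy, act_dl_pow P hP f h y hy]
  have h1 : Cyc.dl f h (Cyc.equiv f h X i) * Cyc.e σ n f ^ (i : ℕ) *
      (Cyc.dl f h (Cyc.equiv f h Y j) * Cyc.e σ n f ^ (j : ℕ)) =
      Cyc.dl f h (Cyc.equiv f h X i * ((sg R σ) ^ (i : ℕ)) (Cyc.equiv f h Y j)) *
        Cyc.e σ n f ^ ((i : ℕ) + j) := by
    rw [mul_assoc, ← mul_assoc (Cyc.e σ n f ^ (i : ℕ)), Cyc.e_pow_mul_dl f h, map_mul, pow_add]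
    simp only [mul_assoc]
  rw [h1, act_dl_pow P hP f h y hy, map_mul, fib_sg_pow, mul_assoc, ← mul_assoc (Sy σ y ^ (i : ℕ)),
    Sy_mul, pow_add]
  refine LinearMap.ext fun z => ?_
  exact mul_assoc (fib P hP (Cyc.equiv f h X i)) (((sg K σ) ^ (i : ℕ)) (fib P hP (Cyc.equiv f h Y j)))
    ((Sy σ y ^ (i : ℕ)) ((Sy σ y ^ (j : ℕ)) z))

theorem act_one_aux (r : R) : act P hP f h y (algebraMap R _ r) = algebraMap K _ (P r) := by
  have h1 : algebraMap R (Cyc σ n f) r = Cyc.dl f h (algebraMap R _ r) * Cyc.e σ n f ^ 0 := by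
    rw [pow_zero, mul_one, AlgHom.commutes]
  rw [h1, act_dl_pow_lt P hP f h y _ 0 h.2.2, fib_algebraMap, pow_zero, mul_one]
  refine LinearMap.ext fun z => ?_
  change algebraMap K _ (P r) * z = (P r) • z
  rw [Algebra.smul_def]

/-- the action as a ring homomorphism -/
noncomputable def actHom : Cyc σ n f →+* Module.End K (K ⊗[k] L) where
  toFun := act P hP f h y
  map_one' := by
    have h1 := act_one_aux P hP f h y 1
    rw [map_one, map_one, map_one] at h1
    exact h1
  map_mul' := act_mul P hP f h y hy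
  map_zero' := act_zero P hP f h y
  map_add' := act_add P hP f h y

end

/-- job SPL -/
theorem t_SPL : S_SPL := by
  intro hLIN k R L K _ _ _ _ _ _ _ σ n h f P hP hPf y hy
  have hfd := finiteDimensional_of_isGen h
  have := Cyc_free f h
  have := Cyc_finite f h
  have hR : Nontrivial R := P.domain_nontrivial
  refine split_of_hom P (Cyc σ n f) (Module.End K (K ⊗[k] L)) (actHom P hP f h y hy)
    (act_one_aux P hP f h y) ?_ ?_ n ?_
  · rw [Cyc_finrank f h, Module.finrank_linearMap, Module.finrank_baseChange, h.1]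
  · rw [eq_top_iff]
    intro T _
    obtain ⟨_, _, _, _, -, hT⟩ := hLIN k K L σ n h
    obtain ⟨m, hm⟩ := hT T
    have hu : ∀ j ≤ n, IsUnit (nr K σ j y) := by
      intro j hj
      have h1 : IsUnit (nr K σ n y) := by
        rw [hy]
        exact (IsUnit.mk0 _ hPf).map _
      refine isUnit_of_dvd_unit ?_ h1
      unfold nr
      exact Finset.prod_dvd_prod_of_subset _ _ _ (Finset.range_subset_range.2 hj)
    have hT' : T = ∑ j ∈ Finset.range n, LinearMap.mulLeft K (m j * Ring.inverse (nr K σ j y)) *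
        Sy σ y ^ j := by
      refine LinearMap.ext fun z => ?_
      rw [hm z, LinearMap.sum_apply]
      refine Finset.sum_congr rfl fun j hj => ?_
      change _ = m j * Ring.inverse (nr K σ j y) * (Sy σ y ^ j) z
      rw [Sy_pow_apply, mul_assoc, ← mul_assoc (Ring.inverse _),
        Ring.inverse_mul_cancel _ (hu j (Finset.mem_range.1 hj).le), one_mul]
    rw [hT']
    refine Submodule.sum_mem _ fun j hj => ?_
    generalize m j * Ring.inverse (nr K σ j y) = c
    induction c with
    | zero =>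
      have : (LinearMap.mulLeft K (0 : K ⊗[k] L) * Sy σ y ^ j) = 0 := by
        refine LinearMap.ext fun z => ?_
        change (0 : K ⊗[k] L) * _ = 0
        rw [zero_mul]
      rw [this]
      exact Submodule.zero_mem _
    | add a b ha hb =>
      have : (LinearMap.mulLeft K (a + b) * Sy σ y ^ j) =
          LinearMap.mulLeft K a * Sy σ y ^ j + LinearMap.mulLeft K b * Sy σ y ^ j := by
        refine LinearMap.ext fun z => ?_
        change (a + b) * _ = a * _ + b * _
        rw [add_mul]
      rw [this]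
      exact Submodule.add_mem _ ha hb
    | tmul c x =>
      have : (LinearMap.mulLeft K (c ⊗ₜ[k] x) * Sy σ y ^ j) =
          c • actHom P hP f h y hy (Cyc.dl f h (1 ⊗ₜ x) * Cyc.e σ n f ^ j) := by
        change _ = c • act P hP f h y _
        rw [act_dl_pow P hP f h y hy, fib_tmul, map_one]
        refine LinearMap.ext fun z => ?_
        change (c ⊗ₜ[k] x) * _ = c • ((1 ⊗ₜ[k] x) * _)
        rw [← smul_mul_assoc, TensorProduct.smul_tmul', smul_eq_mul, mul_one]
      rw [this]
      exact Submodule.smul_mem _ _ (Submodule.subset_span ⟨_, rfl⟩)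
  · have hn : Module.finrank K (K ⊗[k] L) = n := by rw [Module.finrank_baseChange, h.1]
    exact LinearMap.toMatrixAlgEquiv (Module.finBasisOfFinrankEq K (K ⊗[k] L) hn)

end Pool.Agent.Q33.SB
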