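import Pool.Agent.Q33.SB.Def

/-!
# Project SB (row MP_ad201b_nt, FULL answer NO): the lemma jobs

THEOREM.  Let `X` be the elliptic curve `w² = u⁴ + 1` over `ℚ` without its four rational points (so
`u ≠ 0, ∞`; `X = Spec CoordRing`).  (1) For all nonempty open `U ⊂ X` the projection
`π₁(U) → Gal(ℚ̄/ℚ)` has a splitting (tangential section at the missing rational point `u = 0`,
`w = 1`).  (2) `X(𝔸) ≠ ∅`.  (3) `X(𝔸)^Br = ∅`: for every adelic point `P` there are an odd prime `p0`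
and a cyclic algebra `B = (ℚ(ζ_N)/ℚ, σ, u/e)`, `N = p0^m`, `e ∈ ℚˣ`, such that the fibres `B(P_v)` are
split for all places `v ≠ p0` and not split for `v = p0`.

PROOF of (3).  Let `c_v = u(P_v)`, `e = sign(c_∞) ∏ p^{v_p(c_p)}`, `b_v = c_v / e`, a unit for all `p`,
`b_∞ > 0`.  If `b_p = 1` for all odd `p`, then `e⁴ + 1` is a square in `ℚ_p` for all odd `p`, so it is
`s²` or `2 s²` with `s ∈ ℚ`; the first is impossible by Fermat (`not_fermat_42`), the second since `2` is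
not a square in `ℚ_3`.  So `b_{p0}` is not `≡ 1 mod N = p0^m` for some odd `p0` and `m`.  `B(P_v)` is split
iff `b_v` is a norm from `ℚ_v ⊗ ℚ(ζ_N)` (`S_SPL`, `S_NSP`).  For `v = ∞`: `b^{1/n}`; for `p ≠ p0`: `S_NUN`
(unramified extension); for `p0`: norms which are units are `≡ 1 mod N` (`S_NON`).
-/

set_option autoImplicit false

open scoped TensorProduct NumberField
open CategoryTheory

namespace Pool.Agent.Q33.SB

/-! ### Cyclic algebras (helper file with the basic facts: `Pool.Agent.Q33.SB.Bas`) -/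

/-- JOB LIN.  (1) There are `x i`, `y i` in `L` with `∑ x_i σ^j(y_i) = δ_{j,0}` for `j < n`;
(2) every `R`-linear endomorphism of `R ⊗ L` is of the form `z ↦ ∑_{j<n} m_j σ^j(z)`.
Proof.  `L/k` is Galois with group generated by `σ` (`IsGen`; Mathlib: `IsGalois.of_card_aut_eq_finrank`; the
`σ^j`, `j < n`, are all automorphisms).  Let `x_i` be a basis of `L/k` and `y_i` the dual basis for the
trace form (Mathlib: `Algebra.traceForm`, `traceForm_nondegenerate`, `BilinForm.dualBasis`), so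
`z = ∑_i x_i Tr(y_i z)` for `z ∈ L`; with `Tr(z) = ∑_{j<n} σ^j(z)` this is
`z = ∑_j (∑_i x_i σ^j(y_i)) σ^j(z)`, and (1) follows from Dedekind's independence of the `σ^j` (Mathlib:
`linearIndependent_monoidHom`, `linearIndependent_toLinearMap`).  (2): for `z ∈ R ⊗ L` the element
`∑_j σ^j((1 ⊗ y_i) z)` is `t_i ⊗ 1` with `t_i ∈ R` (check for pure tensors), and
`z = ∑_i (1 ⊗ x_i) (t_i ⊗ 1)` by (1); so `T z = ∑_i T(1 ⊗ x_i) ∑_j σ^j(1 ⊗ y_i) σ^j(z)`. -/
def S_LIN : Prop := ∀ (k R L : Type) [Field k] [CommRing R] [Algebra k R] [Field L] [Algebra k L]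
  (σ : L ≃ₐ[k] L) (n : ℕ), IsGen σ n →
  ∃ (ι : Type) (_ : Fintype ι) (x y : ι → L),
    (∀ j < n, ∑ i, x i * (σ ^ j) (y i) = if j = 0 then 1 else 0) ∧
    ∀ T : (R ⊗[k] L) →ₗ[R] (R ⊗[k] L), ∃ m : ℕ → R ⊗[k] L,
      ∀ z, T z = ∑ j ∈ Finset.range n, m j * ((sg R σ) ^ j) z

/-- JOB AZU.  The cyclic algebra is an Azumaya algebra if `f` is a unit.
Proof (use `Bas`: `B = Cyc σ n f` has the `R ⊗ L`-basis `e^j`, `j < n`, `e x = σ(x) e`, `e^n = f`).  `B` is a free
`R`-module of rank `n²` (linear equivalence with `Fin n → R ⊗ L`), so it is finite, projective and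
faithful.  `B ⊗ Bᵐᵒᵖ` and `End_R(B)` are free of the same rank `n⁴`, so it is enough that
`AlgHom.mulLeftRight` is surjective (`OrzechProperty.injective_of_surjective_endomorphism`).  Its range `S`
is closed under composition, and contains left and right multiplications.  With `x_i`, `y_i` from `S_LIN`:
`π_k(X) = ∑_i x_i X σ^{-k}(y_i)` (`σ^{-k} = σ^{n-k}`) is the projection to `(R ⊗ L) e^k`.  Let `T ∈ End_R(B)`,
`T(m e^k) = ∑_l T_{lk}(m) e^l`, `T_{lk}(m) = ∑_j m_j σ^j(m)` by `S_LIN`.  The map `m e^k ↦ m_j σ^j(m) e^l` is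
`X ↦ (m_j e^j) π_k(X) e^{l-k-j}` (`e` is a unit since `f` is), so it is in `S`, and `T` is a sum of such
maps. -/
def S_AZU : Prop := S_LIN → ∀ (k R L : Type) [Field k] [CommRing R] [Nontrivial R] [Algebra k R]
  [Field L] [Algebra k L] (σ : L ≃ₐ[k] L) (n : ℕ), IsGen σ n → ∀ f : Rˣ, IsAzumaya R (Cyc σ n (f : R))

/-- JOB SPL.  The fibre is split if `P f` is a norm.
Proof.  Let `M = K ⊗ L`, `N_j(y) = ∏_{i<j} σ^i(y)`.  `Ψ(X) = ∑_j φ(X_{0j}) N_j(y) σ^j` (`X_{0j}` the first row,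
`φ : R ⊗ L → K ⊗ L` induced by `P`) is a ring homomorphism `B → End_K(M)` over `P`: it is the action of the
matrices on the column vectors `v = (v_i)` with `P_f v = σ(v) y`, that is `v_i = σ^i(v_0) N_i(y)` (the last
equation holds since `N_n(y) = P f`): if `X ∈ B` and `v` is of this kind then `X v` is of this kind, since
`P_f X v = σ(X) P_f v = σ(X) σ(v) y`.  (Or: `x e^j ↦ x (y σ)^j`.)  The induced `K`-linear map
`K ⊗_R B → End_K(M)` is surjective by `S_LIN` (the `N_j(y)` are units since `P f ≠ 0`), both sides have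
dimension `n²` (`Bas`), so it is bijective; `End_K(M)` is a matrix algebra. -/
def S_SPL : Prop := S_LIN → ∀ (k R L K : Type) [Field k] [CommRing R] [Algebra k R]
  [Field L] [Algebra k L] [Field K] [Algebra k K] (σ : L ≃ₐ[k] L) (n : ℕ), IsGen σ n →
  ∀ (f : R) (P : R →+* K), (∀ a : k, P (algebraMap k R a) = algebraMap k K a) → P f ≠ 0 →
  ∀ y : K ⊗[k] L, nr K σ n y = algebraMap K (K ⊗[k] L) (P f) → Split K P (Cyc σ n f)

/-- JOB NSP.  If `K ⊗ L` is a field and the fibre is split, then `P f` is a norm.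
Proof.  Let `K ⊗_R B ≅ M_d(K)`; by dimensions (`Bas`) `d = n` (`n²` is the dimension of the left side).  So
`B` acts on `V = K^n` (`R` acts through `P`).  `L` acts on `V` (the elements `1 ⊗ x` of `R ⊗ L ⊂ B`), so
`M = K ⊗ L` acts on `V`; let `v ≠ 0` in `V`; the `K`-linear map `M → V`, `z ↦ z v` is injective since `M` is a
field, and bijective by dimensions.  So `e v = y v` with `y ∈ M`, and `e z v = σ(z) e v`;
`e^j v = N_j(y) v` with `N_j(y) = ∏_{i<j} σ^i(y)` (induction), so `(P f) v = e^n v = N_n(y) v`. -/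
def S_NSP : Prop := ∀ (k R L K : Type) [Field k] [CommRing R] [Algebra k R]
  [Field L] [Algebra k L] [Field K] [Algebra k K] (σ : L ≃ₐ[k] L) (n : ℕ), IsGen σ n →
  ∀ (f : R) (P : R →+* K), (∀ a : k, P (algebraMap k R a) = algebraMap k K a) →
  IsField (K ⊗[k] L) → Split K P (Cyc σ n f) →
  ∃ y : K ⊗[k] L, nr K σ n y = algebraMap K (K ⊗[k] L) (P f)

/-! ### Norms from cyclotomic fields -/

/-- JOB GEN.  The Galois group of `ℚ(ζ_{p^m})` is cyclic for odd `p` (Mathlib:
`IsCyclotomicExtension.autEquivPow`, `ZMod.isCyclic_units_of_prime_pow` or similar). -/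
def S_GEN : Prop := ∀ (p m : ℕ) [Fact p.Prime] (L : Type) [Field L] [NumberField L]
  [IsCyclotomicExtension {p ^ m} ℚ L], p ≠ 2 → ∃ (σ : L ≃ₐ[ℚ] L) (n : ℕ), IsGen σ n

/-- JOB NUN.  Norms at the unramified primes: every unit of `ℤ_p` is a norm from `ℚ_p ⊗ ℚ(ζ_{q^m})`.
Proof.  `nr` of `1 ⊗ y`, `y ∈ L`, is `1 ⊗ N_{L/ℚ}(y)` (`Algebra.norm_eq_prod_automorphisms`; the `σ^i` are all
automorphisms), `nr` is multiplicative, `nr(z ⊗ 1) = z^n ⊗ 1`.  Let `s` be large, `x` an integer with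
`|b - x|_p ≤ p^{-s}`.  By `Pool.Agent.Q38.EX.nrm` (`S_NRM` of `Pool.Agent.Q20.EX.Stm`, with `F = ℚ`, `M = L`, the
modulus `p^s`; `p` is unramified in `L` by `Pool.Agent.Q280.AR.unr`, `S_Unr` part 1, see
`Pool.Agent.Q92.AR.Stm2`) there is `y ∈ Lˣ` with `x / N(y) ≡ 1 mod p^s`.  So `b / N(y) = 1 + O(p^s)`, which is
an `n`-th power in `ℤ_p` by Hensel's lemma if `p^{-s} < |n|²` (Mathlib: `hensels_lemma`). -/
def S_NUN : Prop := ∀ (p q m n : ℕ) [Fact p.Prime] [Fact q.Prime] (L : Type) [Field L] [NumberField L]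
  [IsCyclotomicExtension {q ^ m} ℚ L] (σ : L ≃ₐ[ℚ] L), p ≠ q → IsGen σ n →
  ∀ b : ℚ_[p], ‖b‖ = 1 → ∃ y : ℚ_[p] ⊗[ℚ] L, nr ℚ_[p] σ n y = algebraMap ℚ_[p] (ℚ_[p] ⊗[ℚ] L) b

/-- JOB NMI.  Norms of integers of `L = ℚ(ζ_N)`, `N = p^m ≥ 3`: the part prime to `p` is `≡ 1 mod N`.
Proof.  (i) `L` is totally complex, so the norm of `β ≠ 0` is positive: it is the product of the `φ(β)` over
the embeddings `φ : L → ℂ` (`Algebra.norm_eq_prod_embeddings`), and complex conjugation is an involution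
without fixed points on the embeddings: `Finset.prod_involution` for `φ(β)/|φ(β)|` shows that
the norm divided by its absolute value is `1`.  (ii) `|N(β)|` is the absolute norm of the ideal `(β)`, the
product of the absolute norms of its prime factors `𝔮`; if `p ∉ 𝔮` then `N` divides `N(𝔮) - 1` (Mathlib:
`NumberField.torsionOrder_dvd_absNorm_sub_one` or the order of `ζ_N` in the unit group of `𝓞/𝔮`), if `p ∈ 𝔮`
then `N(𝔮)` is a power of `p`.  So `|N(β)| = p^s a`, `a ≡ 1 mod N`, `p ∤ a`. -/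
def S_NMI : Prop := ∀ (p m : ℕ) [Fact p.Prime] (L : Type) [Field L] [NumberField L]
  [IsCyclotomicExtension {p ^ m} ℚ L], p ≠ 2 → 1 ≤ m → ∀ (β : 𝓞 L) (a : ℤ) (s : ℕ),
  Algebra.norm ℤ β = (p : ℤ) ^ s * a → ¬ (p : ℤ) ∣ a → (p : ℤ) ^ m ∣ a - 1

/-- JOB NON.  A unit of `ℤ_p` which is a norm from `ℚ_p ⊗ ℚ(ζ_N)`, `N = p^m`, is `≡ 1 mod N`.
Proof.  Let `ζ ∈ L` be a primitive `N`-th root of unity; `y = ∑_{i<n} c_i ⊗ ζ^i` (power basis,
`IsPrimitiveRoot.powerBasis` or `IsCyclotomicExtension.Rat`...; it is enough that the `ζ^i` generate `L`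
over `ℚ`).  Choose `k` with `p^k c_i ∈ ℤ_p` and integers `a_i` with `|a_i - p^k c_i| ≤ p^{-T}`,
`T = n k + m`, `β = ∑ a_i ζ^i ∈ 𝓞 L`.  Work in the subring `Λ` of `ℚ_p ⊗ L` of the `ℤ_p`-combinations
of the `1 ⊗ ζ^i`, `i < N` (closed under multiplication and the `σ^j`): `β ≡ p^k y mod p^T Λ`, so
`nr(β) ≡ nr(p^k y) = p^{nk} b mod p^T Λ`.  `nr(β) = N(β) ∈ ℤ`.  So `N(β) - p^{nk} b ∈ p^T Λ ∩ ℚ_p =
p^T ℤ_p` (`Λ ∩ ℚ_p = ℤ_p` since `Λ` is a finitely generated `ℤ_p`-module and `ℤ_p` is integrally closed).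
So `N(β) = p^{nk} a` with `a ∈ ℤ`, `|a - b| ≤ p^{-m}`; `p ∤ a`, and `a ≡ 1 mod p^m` by `S_NMI`. -/
def S_NON : Prop := S_NMI → ∀ (p m n : ℕ) [Fact p.Prime] (L : Type) [Field L] [NumberField L]
  [IsCyclotomicExtension {p ^ m} ℚ L] (σ : L ≃ₐ[ℚ] L), p ≠ 2 → 1 ≤ m → IsGen σ n →
  ∀ (b : ℚ_[p]) (y : ℚ_[p] ⊗[ℚ] L), ‖b‖ = 1 →
  nr ℚ_[p] σ n y = algebraMap ℚ_[p] (ℚ_[p] ⊗[ℚ] L) b → ‖b - 1‖ ≤ (p : ℝ) ^ (-(m : ℤ))

/-- JOB FLD.  `ℚ_p ⊗ ℚ(ζ_{p^m})` is a field.
Proof.  `L = ℚ[X]/Φ`, `Φ` the cyclotomic polynomial, so the tensor product is `ℚ_p[X]/Φ` and it is enough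
that `Φ` is irreducible over `ℚ_p`.  `Φ(X + 1)` is Eisenstein at `p` over `ℤ`
(`Polynomial.cyclotomic_prime_pow_comp_X_add_one_isEisensteinAt`), so also over `ℤ_p`
(`p^2 ∤` constant coefficient over `ℤ` implies the same over `ℤ_p`), `IsEisensteinAt.irreducible` and
Gauss' lemma (`Polynomial.Monic.irreducible_iff_irreducible_map_fraction_map`). -/
def S_FLD : Prop := ∀ (p m : ℕ) [Fact p.Prime] (L : Type) [Field L] [NumberField L]
  [IsCyclotomicExtension {p ^ m} ℚ L], 1 ≤ m → IsField (ℚ_[p] ⊗[ℚ] L)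

/-! ### Arithmetic of the curve -/

/-- JOB ARI.  See the proof of (3) above: `c p = u(P_p)`, `r = u(P_∞)`.
`e = sign(r) ∏ p^{v_p(c_p)}`; if `c_p = e` for all odd `p` then `e⁴ + 1` has even valuation at all odd `p` and is
positive, so it is `s²` or `2 s²`; the second is impossible at `p = 3` (`-1` is not a square mod 3..: `2` is
not a square in `ℚ_3`), the first by `not_fermat_42`. If `c_p / e ≠ 1` then `|c_p / e - 1| > p^{-m}` for some
`m ≥ 1`. -/
def S_ARI : Prop := ∀ (c : ∀ (p : ℕ) [Fact p.Prime], ℚ_[p]) (r : ℝ),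
  (∀ (p : ℕ) [Fact p.Prime], c p ≠ 0) → r ≠ 0 →
  {p : ℕ | ∃ _ : Fact p.Prime, ‖c p‖ ≠ 1}.Finite →
  (∀ (p : ℕ) [Fact p.Prime], ∃ w : ℚ_[p], w ^ 2 = (c p) ^ 4 + 1) →
  ∃ e : ℚ, e ≠ 0 ∧ 0 < r / e ∧ (∀ (p : ℕ) [Fact p.Prime], ‖c p / e‖ = 1) ∧
    ∃ (p m : ℕ) (_ : Fact p.Prime), p ≠ 2 ∧ 1 ≤ m ∧ (p : ℝ) ^ (-(m : ℤ)) < ‖c p / e - 1‖

/-- JOB ADP.  `X(𝔸) ≠ ∅`.
Proof.  For `u = 1/2, 5/6, 8/13` the numbers `u⁴ + 1` are `17/16`, `1921/1296`, `32657/28561` and
`17 * 1921 * 32657 = (17² * 113)²`.  So for each prime `p` different from `2, 3, 5, 13, 17, 113` one of the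
three numbers `u⁴ + 1` is a square in `ℤ_pˣ` (the product of three nonsquares mod `p` is a nonsquare;
Hensel).  For the six other `p` take `u = 4 p`: `u⁴ + 1` is near `1`, so it is a square in `ℚ_p`
(integrality of `u`, `u⁻¹`, `w` is needed for almost all `p` only).  `u = 1/2` over `ℝ`.
`w_p = √(u⁴ + 1)`.  Integrality: the regular functions are polynomials in `u`, `u⁻¹`, `w` with rational
coefficients. -/
def S_ADP : Prop := Nonempty AdelicPoint

/-- JOB DOM.  `X` is a geometrically integral affine variety: `CoordRing` is a finitely generated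
`ℚ`-algebra, a domain, and so is `CoordRing ⊗ K` for all fields `K` over `ℚ`. (`u⁴ + 1` is not a square in
`K(u)` for `K` of characteristic zero: it is squarefree of positive degree.) -/
def S_DOM : Prop := Algebra.FiniteType ℚ CoordRing ∧ IsDomain CoordRing ∧
  ∀ (K : Type) [Field K] [Algebra ℚ K], IsDomain (CoordRing ⊗[ℚ] K)

/-- JOB SMO.  `X` is smooth. (`CoordRing = ℚ[w][u, u⁻¹]/(u⁴ + 1 - w²)` is standard etale over `ℚ[w]`, since
`4 u³` is a unit; or use the Jacobian criterion / a presentation; Mathlib: `StandardEtalePair`,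
`Algebra.IsStandardSmooth`, `Algebra.Smooth`.) -/
def S_SMO : Prop := Algebra.Smooth ℚ CoordRing

/-! ### The splitting -/

/-- A section of `Gal(Ω/R) → Gal(ℚ̄/ℚ)` for an embedding of the ring `R` in an algebraically closed
field `Ω`, continuous on the elements algebraic over `R`. -/
def HasSection (R : Type) [CommRing R] [Algebra ℚ R] : Prop :=
  ∃ (Ω : Type) (_ : Field Ω) (_ : IsAlgClosed Ω) (j : R →+* Ω) (ι : AlgebraicClosure ℚ →+* Ω)
    (s : GalQ →* (Ω ≃+* Ω)), Function.Injective j ∧ (∀ σ r, s σ (j r) = j r) ∧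
    (∀ σ a, s σ (ι a) = ι (σ a)) ∧
    ∀ α : Ω, (∃ q : Polynomial R, q ≠ 0 ∧ q.eval₂ j α = 0) → IsOpen {σ : GalQ | s σ α = α}

/-- JOB PUI.  The tangential section.
Proof.  `Ω = Pui (AlgebraicClosure ℚ)`, the field of Puiseux series (`Pool.Agent.Helper165.P1.Pui`, it is
algebraically closed), `s σ` = action of `σ` on the coefficients (`twP σ 1` of `Pool.Agent.Helper165.P1.Fields`),
`j : u ↦ t`, `w ↦ √(1 + t⁴) ∈ ℚ[[t]]` (a power series with rational coefficients; or: one of the two roots of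
`W² = 1 + t⁴` has constant term `1`, and it is fixed by the `s σ` since the other root has constant term
`-1`), `j` is injective since `t` is transcendental and `1 + t⁴` is not a square in `ℚ(t)`.  Openness: let `q ≠ 0`
be a polynomial over `R` with the root `α`; the `s σ α` are roots of `q`, so the stabilizer has finite index;
it is closed, as the intersection of the stabilizers of the coefficients of `α` (each of them is open:
Mathlib has it for elements of `AlgebraicClosure ℚ`); closed of finite index is open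
(`Subgroup.isOpen_of_isClosed_of_finiteIndex`). -/
def S_PUI : Prop := HasSection CoordRing

/-- JOB FIX.  A point of a finite cover over the generic point is fixed by the automorphisms which fix
finitely many elements algebraic over `R`.
Proof.  Let `V = Spec A` be an affine open of `U` containing the image of `y` (e.g. a basic open `D(g)` of
`Spec R`), `Y_V = Spec C` with `C` finite over `A` (`IsFinite`).  `y` is given by a ring homomorphism
`C → Ω` over `j`; `C` is generated by finitely many `c_i` as `A`-module (as an algebra), let `S` be the set of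
their images `α_i`, which are integral over `A ⊂ Frac R`, so algebraic over `R`.  If `τ` fixes the `α_i` and
`j(R)` then `τ` composed with `C → Ω` is the same homomorphism.  (Or with residue fields:
`Scheme.SpecToEquivOfField`.) -/
def S_FIX : Prop := ∀ (R : Type) [CommRing R] [IsDomain R] (Ω : Type) [Field Ω] (j : R →+* Ω),
  Function.Injective j → ∀ (U : (AlgebraicGeometry.Spec (.of R)).Opens)
  (Y : AlgebraicGeometry.Scheme.{0}) (h : Y ⟶ U.toScheme) (_ : AlgebraicGeometry.IsFinite h)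
  (y : AlgebraicGeometry.Spec (.of Ω) ⟶ Y),
  y ≫ h ≫ U.ι = AlgebraicGeometry.Spec.map (CommRingCat.ofHom j) →
  ∃ S : Finset Ω, (∀ α ∈ S, ∃ q : Polynomial R, q ≠ 0 ∧ q.eval₂ j α = 0) ∧
    ∀ τ : Ω ≃+* Ω, (∀ r, τ (j r) = j r) → (∀ α ∈ S, τ α = α) →
      AlgebraicGeometry.Spec.map (CommRingCat.ofHom (τ : Ω →+* Ω)) ≫ y = y

/-- JOB SCH.  From a section for the field `Ω` to the splitting of all the `p_U`.
Proof.  Let `U` be nonempty open in `Spec R`.  `Spec j : Spec Ω → Spec R` has image the generic point (`j` is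
injective), which lies in `U`, so it factors through `x : Spec Ω → U` (`IsOpenImmersion.lift`).
`s σ` acts on the fibre `Hom_U(Spec Ω, Y)` by composition with `Spec (s σ) : Spec Ω → Spec Ω`, a morphism over
`U` since `s σ` fixes `j(R)`; this is natural in `Y`, and a homomorphism to `Aut` (`Spec` reverses the order,
and composition with it again: `(σ τ) y = Spec(s σ) ≫ Spec(s τ) ≫ y`).  Continuity by `S_FIX`: the stabilizer
of `y` contains the intersection of the open sets `{σ | s σ α = α}`, `α ∈ S`, which are subgroups (a subgroup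
containing an open subgroup is open).  `LiesOver`: `y ≫ g = Spec ι ≫ z` gives
`Spec (s σ) ≫ y ≫ g = Spec (s σ) ≫ Spec ι ≫ z = Spec (s σ ∘ ι) ≫ z = Spec (ι ∘ σ) ≫ z = Spec ι ≫ Spec σ ≫ z`. -/
def S_SCH : Prop := S_FIX → ∀ (R : Type) [CommRing R] [IsDomain R] [Algebra ℚ R],
  HasSection R → SplittingCondition R

end Pool.Agent.Q33.SB
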